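import Pool.Agent.helper37.NE.SpecA

set_option autoImplicit false

/-!
# Row ne:YGR (MP_baa4d7_al)
-/

namespace Pool.Agent.NE

open Pool.Agent.helper58.DC Pool.Agent.DI Pool.Agent.GR Pool.Agent.OB Pool.Agent.DR Pool.Agent.FI Pool.Agent.FI3 Pool.Agent.FI4 Pool.Agent.FI4I Pool.Agent.LE Pool.Agent.L5 Pool.Agent.NAB Pool.Agent.ND

open Classical in
theorem YGR_fs {G : Type} [Group G] [Fintype G] (K : Subgroup G) (f : G → ℂ) :
    ∑ᶠ x ∈ (K : Set G), f x = ∑ x ∈ Finset.univ.filter (fun x => x ∈ K), f x := by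
  rw [finsum_mem_eq_finite_toFinset_sum _ (Set.toFinite _)]
  refine Finset.sum_congr ?_ fun _ _ => rfl
  ext x
  rw [Set.Finite.mem_toFinset, Finset.mem_filter]
  exact ⟨fun h => ⟨Finset.mem_univ _, h⟩, fun h => h.2⟩

open Classical in
theorem YGR_inv {G : Type} [Group G] [Fintype G] (K : Subgroup G) (f : G → ℂ) :
    ∑ x ∈ Finset.univ.filter (fun x => x ∈ K), f x⁻¹ = ∑ x ∈ Finset.univ.filter (fun x => x ∈ K), f x := by
  refine Finset.sum_nbij' (fun x => x⁻¹) (fun x => x⁻¹) ?_ ?_ ?_ ?_ ?_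
  · intro x hx
    simpa using hx
  · intro x hx
    simpa using hx
  · intro x _
    simp
  · intro x _
    simp
  · intro x _
    rfl

open Classical in
/-- the expansion of a class function of `K` -/
theorem YGR_exp (hB2 : DI.B2_stmt) (hEXP : EXP_stmt) {G : Type} [Group G] [Fintype G] (K : Subgroup G) (η : G → ℂ)
    (hη : ∀ h ∈ K, ∀ x, η (h * x * h⁻¹) = η x) (x : G) (hx : x ∈ K) :
    η x = ∑ ψ ∈ (hB2 G K).1.toFinset, mt K η ψ * ψ x := by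
  have hB := (hB2 G K).2
  have hcK : (Nat.card K : ℂ) ≠ 0 := by exact_mod_cast Nat.card_pos.ne'
  set F := (hB2 G K).1.toFinset with hF
  have hFm : ∀ ψ, ψ ∈ F ↔ ψ ∈ IrrOn K := fun ψ => by rw [hF, Set.Finite.mem_toFinset]
  set z : G → ℂ := fun x => if x ∈ K then η x⁻¹ - ∑ ψ ∈ F, mt K η ψ * ψ x⁻¹ else 0 with hz
  have hCF : CF K z := by
    refine ⟨?_, ?_⟩
    · intro h hh x
      simp only [hz]
      have h1 : h * x * h⁻¹ ∈ K ↔ x ∈ K := by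
        constructor
        · intro h2
          have h3 := K.mul_mem (K.mul_mem (K.inv_mem hh) h2) hh
          have h4 : h⁻¹ * (h * x * h⁻¹) * h = x := by group
          rwa [h4] at h3
        · intro h2
          exact K.mul_mem (K.mul_mem hh h2) (K.inv_mem hh)
      have h2 : (h * x * h⁻¹)⁻¹ = h * x⁻¹ * h⁻¹ := by group
      rw [h2, hη h hh]
      have h3 : ∑ ψ ∈ F, mt K η ψ * ψ (h * x⁻¹ * h⁻¹) = ∑ ψ ∈ F, mt K η ψ * ψ x⁻¹ := by
        refine Finset.sum_congr rfl fun ψ hψ => ?_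
        rw [(hB ψ ((hFm ψ).1 hψ)).2.1 x⁻¹ h hh]
      rw [h3]
      by_cases hxK : x ∈ K
      · rw [if_pos (h1.2 hxK), if_pos hxK]
      · rw [if_neg (fun hc => hxK (h1.1 hc)), if_neg hxK]
    · intro x hx
      simp only [hz]
      rw [if_neg hx]
  have hcc : ∀ ξ ∈ IrrOn K, cc ξ z = 0 := by
    intro ξ hξ
    have e1 : ∑ᶠ x, z x * ξ x = ∑ x ∈ Finset.univ.filter (fun x => x ∈ K), (η x⁻¹ - ∑ ψ ∈ F, mt K η ψ * ψ x⁻¹) * ξ x := by
      rw [finsum_eq_sum_of_fintype, Finset.sum_filter]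
      refine Finset.sum_congr rfl fun x _ => ?_
      simp only [hz]
      split_ifs
      · rfl
      · rw [zero_mul]
    have e2 : ∑ x ∈ Finset.univ.filter (fun x => x ∈ K), (η x⁻¹ - ∑ ψ ∈ F, mt K η ψ * ψ x⁻¹) * ξ x =
        ∑ x ∈ Finset.univ.filter (fun x => x ∈ K), (η x - ∑ ψ ∈ F, mt K η ψ * ψ x) * ξ x⁻¹ := by
      rw [← YGR_inv K (fun x => (η x - ∑ ψ ∈ F, mt K η ψ * ψ x) * ξ x⁻¹)]
      refine Finset.sum_congr rfl fun x _ => ?_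
      rw [inv_inv]
    have e3 : ∑ x ∈ Finset.univ.filter (fun x => x ∈ K), η x * ξ x⁻¹ = Nat.card K * mt K η ξ := by
      unfold Pool.Agent.FI.mt
      rw [YGR_fs, mul_div_cancel₀ _ hcK]
    have e4 : ∑ x ∈ Finset.univ.filter (fun x => x ∈ K), (∑ ψ ∈ F, mt K η ψ * ψ x) * ξ x⁻¹ = Nat.card K * mt K η ξ := by
      have e5 : ∑ x ∈ Finset.univ.filter (fun x => x ∈ K), (∑ ψ ∈ F, mt K η ψ * ψ x) * ξ x⁻¹ =
          ∑ ψ ∈ F, mt K η ψ * ∑ x ∈ Finset.univ.filter (fun x => x ∈ K), ψ x * ξ x⁻¹ := by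
        simp only [Finset.sum_mul, Finset.mul_sum]
        rw [Finset.sum_comm]
        refine Finset.sum_congr rfl fun ψ _ => Finset.sum_congr rfl fun x _ => ?_
        ring
      have e6 : ∀ ψ ∈ F, ∑ x ∈ Finset.univ.filter (fun x => x ∈ K), ψ x * ξ x⁻¹ = if ψ = ξ then (Nat.card K : ℂ) else 0 := by
        intro ψ hψ
        have h1 := (hB ψ ((hFm ψ).1 hψ)).2.2.2.2 ξ hξ
        rw [finsum_eq_sum_of_fintype] at h1
        have h2 : ∑ x ∈ Finset.univ.filter (fun x => x ∈ K), ψ x * ξ x⁻¹ = ∑ x : G, ψ x * ξ x⁻¹ := by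
          rw [Finset.sum_filter]
          refine Finset.sum_congr rfl fun x _ => ?_
          split_ifs with hxK
          · rfl
          · rw [(hB ψ ((hFm ψ).1 hψ)).2.2.2.1 x hxK, zero_mul]
        rw [h2, h1]
        split_ifs <;> rfl
      rw [e5, Finset.sum_eq_single ξ]
      · rw [e6 ξ ((hFm ξ).2 hξ), if_pos rfl, mul_comm]
      · intro ψ hψ hne
        rw [e6 ψ hψ, if_neg hne, mul_zero]
      · intro h
        exact absurd ((hFm ξ).2 hξ) h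
    unfold cc
    rw [e1, e2]
    have e7 : ∑ x ∈ Finset.univ.filter (fun x => x ∈ K), (η x - ∑ ψ ∈ F, mt K η ψ * ψ x) * ξ x⁻¹ = 0 := by
      simp only [sub_mul, Finset.sum_sub_distrib]
      rw [e3, e4, sub_self]
    rw [e7, zero_div]
  have h0 := hEXP G K z hCF hcc
  have h1 := congrFun h0 x⁻¹
  simp only [hz, Pi.zero_apply] at h1
  rw [if_pos (K.inv_mem hx), inv_inv] at h1
  exact sub_eq_zero.1 h1

open Classical in
/-- the scalar product on `K` -/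
theorem YGR_ip (hB2 : DI.B2_stmt) (hEXP : EXP_stmt) {G : Type} [Group G] [Fintype G] (K : Subgroup G) (η₁ η₂ : G → ℂ)
    (h1 : ∀ h ∈ K, ∀ x, η₁ (h * x * h⁻¹) = η₁ x) :
    ∑ x ∈ Finset.univ.filter (fun x => x ∈ K), η₁ x * η₂ x⁻¹ = Nat.card K * ∑ ψ ∈ (hB2 G K).1.toFinset, mt K η₁ ψ * mt K η₂ ψ := by
  have hcK : (Nat.card K : ℂ) ≠ 0 := by exact_mod_cast Nat.card_pos.ne'
  have e1 : ∀ ψ : G → ℂ, ∑ x ∈ Finset.univ.filter (fun x => x ∈ K), ψ x * η₂ x⁻¹ = Nat.card K * mt K η₂ ψ := by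
    intro ψ
    unfold Pool.Agent.FI.mt
    rw [YGR_fs, mul_div_cancel₀ _ hcK, ← YGR_inv K (fun x => η₂ x * ψ x⁻¹)]
    refine Finset.sum_congr rfl fun x _ => ?_
    rw [inv_inv, mul_comm]
  calc ∑ x ∈ Finset.univ.filter (fun x => x ∈ K), η₁ x * η₂ x⁻¹ =
      ∑ x ∈ Finset.univ.filter (fun x => x ∈ K), (∑ ψ ∈ (hB2 G K).1.toFinset, mt K η₁ ψ * ψ x) * η₂ x⁻¹ := by
        refine Finset.sum_congr rfl fun x hx => ?_
        rw [← YGR_exp hB2 hEXP K η₁ h1 x (Finset.mem_filter.1 hx).2]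
    _ = ∑ ψ ∈ (hB2 G K).1.toFinset, mt K η₁ ψ * ∑ x ∈ Finset.univ.filter (fun x => x ∈ K), ψ x * η₂ x⁻¹ := by
        simp only [Finset.sum_mul, Finset.mul_sum]
        rw [Finset.sum_comm]
        refine Finset.sum_congr rfl fun ψ _ => Finset.sum_congr rfl fun x _ => ?_
        ring
    _ = Nat.card K * ∑ ψ ∈ (hB2 G K).1.toFinset, mt K η₁ ψ * mt K η₂ ψ := by
        rw [Finset.mul_sum]
        refine Finset.sum_congr rfl fun ψ _ => ?_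
        rw [e1 ψ]
        ring

theorem YGR_mt {G : Type} [Group G] [Finite G] (K : Subgroup G) (l f θ₀ : G → ℂ) (hl : ∀ x ∈ K, l x = 1) :
    mt K (fun x => l x * f x) θ₀ = mt K f θ₀ := by
  unfold Pool.Agent.FI.mt
  congr 1
  refine finsum_mem_congr rfl fun x hx => ?_
  simp only []
  rw [hl x hx, one_mul]

/-- one inequality -/
theorem YGR_le (hYLN : YLN_stmt) (hB2 : DI.B2_stmt) {G : Type} [Group G] [Finite G] {N Z : Subgroup G} {w : G} (hw : w ∈ nz N) (θ₀ θ₁ : G → ℂ)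
    (l : G → ℂ) (hl : l ∈ lc N (Nw N w)) (θ₂ : G → ℂ) (h2 : ∀ x, θ₂ x = l x * θ₁ x) :
    rN' N (Nw N w) Z θ₀ θ₁ ≤ rN' N (Nw N w) Z θ₀ θ₂ := by
  obtain ⟨-, -, -, y4, y5, y6⟩ := hYLN G N w hw
  have hfin : (IrrOn (Nw N w ⊓ cz Z)).Finite := (hB2 G (Nw N w ⊓ cz Z)).1
  obtain ⟨l', hl', hll⟩ := y5 l hl
  have hfin2 : Finite {θ'' : G → ℂ // θ'' ∈ IrrOn (Nw N w ⊓ cz Z) ∧ mt (N ⊓ cz Z) θ'' θ₀ ≠ 0 ∧ ∃ a ∈ Nw N w ⊓ nz Z, cjF a θ₂ = θ''} :=
    Set.Finite.to_subtype (hfin.subset fun θ h => h.1)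
  unfold rN'
  refine Nat.card_le_card_of_injective (fun θ => ⟨fun x => l x * θ.1 x, ?_, ?_, ?_⟩) ?_
  · exact y4 _ inf_le_left θ.1 θ.2.1 l hl
  · rw [YGR_mt (N ⊓ cz Z) l θ.1 θ₀ (fun x hx => hl.2.1 x (Subgroup.mem_inf.1 hx).1)]
    exact θ.2.2.1
  · obtain ⟨a, ha, hθ⟩ := θ.2.2.2
    refine ⟨a, ha, ?_⟩
    have haN : a⁻¹ ∈ Nw N w := (Nw N w).inv_mem (Subgroup.mem_inf.1 ha).1
    funext x
    have e1 : cjF a θ₂ x = θ₂ (a⁻¹ * x * a⁻¹⁻¹) := by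
      simp [funMap]
    have e2 : θ.1 x = θ₁ (a⁻¹ * x * a⁻¹⁻¹) := by
      rw [← hθ]
      simp [funMap]
    rw [e1, h2, y6 l hl a⁻¹ haN x, e2]
  · intro θ θ' hθθ
    apply Subtype.ext
    funext x
    have h3 := congrFun (congrArg Subtype.val hθθ) x
    simp only at h3
    by_cases hx : x ∈ Nw N w
    · have hne : l x ≠ 0 := by
        intro h0
        have := hll x hx
        rw [h0, zero_mul] at this
        exact zero_ne_one this
      exact mul_left_cancel₀ hne h3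
    · have hx' : x ∉ Nw N w ⊓ cz Z := fun hc => hx (Subgroup.mem_inf.1 hc).1
      rw [θ.2.1.1 x hx', θ'.2.1.1 x hx']

/-- **Row YGR** -/
theorem YGR (hYLN : YLN_stmt) (hYCL : YCL_stmt) (hYGW : YGW_stmt) (hB2 : DI.B2_stmt) (hEXP : EXP_stmt) : YGR_stmt := by
  classical
  intro p hp G _ _ N Z w hWW θ₀ hθ₀ θ₁ hθ₁ θ₂ hθ₂ hm₁ hm₂
  cases nonempty_fintype G
  have hw : w ∈ nz N := hWW.nn
  obtain ⟨y1, y2, y3, y4, y5, y6⟩ := hYLN G N w hw
  obtain ⟨-, -, -, -, -, -, s, hsC, hsn, hsC'⟩ := hYGW p hp G N Z w hWW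
  have hNle : N ≤ Nw N w := le_sup_left
  have key : ∃ l ∈ lc N (Nw N w), ∀ x, θ₂ x = l x * θ₁ x := by
    by_contra hno
    push Not at hno
    have h1 : ∀ l ∈ lc N (Nw N w), ∑ x : G, l x * (θ₁ x * θ₂ x⁻¹) = 0 := by
      intro l hl
      have hlθ := y4 _ (inf_le_left : Nw N w ⊓ cz Z ≤ Nw N w) θ₁ hθ₁ l hl
      have h2 := ((hB2 G (Nw N w ⊓ cz Z)).2 _ hlθ).2.2.2.2 θ₂ hθ₂
      rw [if_neg, finsum_eq_sum_of_fintype] at h2
      · rw [← h2]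
        refine Finset.sum_congr rfl fun x _ => ?_
        ring
      · intro he
        obtain ⟨x, hx⟩ := hno l hl
        exact hx (congrFun he x).symm
    set T := y1.toFinset with hT
    have hTm : ∀ l, l ∈ T ↔ l ∈ lc N (Nw N w) := fun l => by rw [hT, Set.Finite.mem_toFinset]
    have hTc : (T.card : ℂ) ≠ 0 := by
      rw [Set.ncard_eq_toFinset_card _ y1] at y2
      exact_mod_cast y2
    have h3 : ∑ x : G, (∑ l ∈ T, l x) * (θ₁ x * θ₂ x⁻¹) = 0 := by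
      simp only [Finset.sum_mul]
      rw [Finset.sum_comm]
      exact Finset.sum_eq_zero fun l hl => h1 l ((hTm l).1 hl)
    have h4 : ∑ x : G, (∑ l ∈ T, l x) * (θ₁ x * θ₂ x⁻¹) = T.card * ∑ x ∈ Finset.univ.filter (fun x => x ∈ N ⊓ cz Z), θ₁ x * θ₂ x⁻¹ := by
      rw [Finset.mul_sum, Finset.sum_filter]
      refine Finset.sum_congr rfl fun x _ => ?_
      split_ifs with hxC
      · have hxN : x ∈ N := (Subgroup.mem_inf.1 hxC).1
        have : ∑ l ∈ T, l x = T.card := by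
          rw [Finset.sum_congr rfl fun l hl => ((hTm l).1 hl).2.1 x hxN]
          simp
        rw [this]
      · by_cases hxC' : x ∈ Nw N w ⊓ cz Z
        · have hxN : x ∉ N := fun hc => hxC (Subgroup.mem_inf.2 ⟨hc, (Subgroup.mem_inf.1 hxC').2⟩)
          have h5 := y3 x (Subgroup.mem_inf.1 hxC').1 hxN
          rw [finsum_mem_eq_finite_toFinset_sum _ y1] at h5
          rw [h5, zero_mul]
        · rw [hθ₁.1 x hxC', zero_mul, mul_zero]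
    have hCle : N ⊓ cz Z ≤ Nw N w ⊓ cz Z := inf_le_inf_right _ hNle
    have h5 : ∑ x ∈ Finset.univ.filter (fun x => x ∈ N ⊓ cz Z), θ₁ x * θ₂ x⁻¹ = 0 := by
      rw [h3] at h4
      exact (mul_eq_zero.1 h4.symm).resolve_left hTc
    rw [YGR_ip hB2 hEXP (N ⊓ cz Z) θ₁ θ₂ (fun h hh x => ((hB2 G (Nw N w ⊓ cz Z)).2 θ₁ hθ₁).2.1 x h (hCle hh))] at h5
    have hcK : (Nat.card (N ⊓ cz Z : Subgroup G) : ℂ) ≠ 0 := by exact_mod_cast Nat.card_pos.ne'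
    have h6 := (mul_eq_zero.1 h5).resolve_left hcK
    obtain ⟨-, -, c3, -⟩ := hYCL G (N ⊓ cz Z) s hsn
    rw [← hsC'] at c3
    have h7 : ∀ ψ ∈ (hB2 G (N ⊓ cz Z)).1.toFinset, mt (N ⊓ cz Z) θ₁ ψ * mt (N ⊓ cz Z) θ₂ ψ =
        if mt (N ⊓ cz Z) θ₁ ψ * mt (N ⊓ cz Z) θ₂ ψ = 1 then 1 else 0 := by
      intro ψ hψ
      have hψ' : ψ ∈ IrrOn (N ⊓ cz Z) := by simpa using hψ
      rcases c3 θ₁ hθ₁ ψ hψ' with e1 | e1
      · rw [e1]; simp
      · rcases c3 θ₂ hθ₂ ψ hψ' with e2 | e2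
        · rw [e2]; simp
        · rw [e1, e2]; simp
    rw [Finset.sum_congr rfl h7, Finset.sum_boole] at h6
    have h8 : θ₀ ∈ (hB2 G (N ⊓ cz Z)).1.toFinset.filter (fun ψ => mt (N ⊓ cz Z) θ₁ ψ * mt (N ⊓ cz Z) θ₂ ψ = 1) := by
      rw [Finset.mem_filter]
      refine ⟨by simpa using hθ₀, ?_⟩
      rw [(c3 θ₁ hθ₁ θ₀ hθ₀).resolve_left hm₁, (c3 θ₂ hθ₂ θ₀ hθ₀).resolve_left hm₂, one_mul]
    have h9 := Finset.card_pos.2 ⟨θ₀, h8⟩
    exact absurd h6 (by exact_mod_cast h9.ne')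
  obtain ⟨l, hl, hl2⟩ := key
  obtain ⟨l', hl', hll⟩ := y5 l hl
  refine le_antisymm (YGR_le hYLN hB2 hw θ₀ θ₁ l hl θ₂ hl2) (YGR_le hYLN hB2 hw θ₀ θ₂ l' hl' θ₁ ?_)
  intro x
  by_cases hx : x ∈ Nw N w
  · rw [hl2 x, ← mul_assoc, mul_comm (l' x), hll x hx, one_mul]
  · have hx' : x ∉ Nw N w ⊓ cz Z := fun hc => hx (Subgroup.mem_inf.1 hc).1
    rw [hθ₁.1 x hx', hθ₂.1 x hx', mul_zero]

end Pool.Agent.NE
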